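import Pool.Agent.Helper66.MT.Defs

/-!
The codes determine the branches up to the order of the children.
-/

namespace Pool.Agent.Helper66.MT

open Pool.Agent.Helper44
open Pool.Agent.Helper44.Idg

theorem code_e : code .e = 0 := rfl

theorem code_n (m : Bool) (x y : MB) : code (.n m x y) = mkc m (code x) (code y) := rfl

theorem ln_eq (a : ℕ) : ln a = Nat.log2 a + 1 := rfl

theorem lt_ln (a : ℕ) : a < 2 ^ ln a := Nat.lt_log2_self

theorem pc_eq (h a b : ℕ) : pc h a b = (h * 2 ^ ln a + a) * 2 ^ ln b + b := by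
  show (h <<< ln a + a) <<< ln b + b = _
  rw [Nat.shiftLeft_eq, Nat.shiftLeft_eq]

theorem pc_eq' (h a b : ℕ) : pc h a b = h * 2 ^ (ln a + ln b) + (a * 2 ^ ln b + b) := by
  rw [pc_eq, pow_add]; ring

theorem tail_lt (a b : ℕ) : a * 2 ^ ln b + b < 2 ^ (ln a + ln b) := by
  have h1 := lt_ln a
  have h2 := lt_ln b
  rw [pow_add]
  nlinarith [Nat.zero_le (2 ^ ln b)]

theorem hd_two (m : Bool) : 2 ≤ hd m := by cases m <;> simp [hd]

theorem hd_lt (m : Bool) : hd m < 4 := by cases m <;> simp [hd]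

theorem hd_inj {m m' : Bool} (h : hd m = hd m') : m = m' := by
  cases m <;> cases m' <;> simp [hd] at h ⊢

theorem ln_pc (m : Bool) (a b : ℕ) : ln (pc (hd m) a b) = ln a + ln b + 2 := by
  have h1 := tail_lt a b
  have h2 := hd_two m
  have h3 := hd_lt m
  have e := pc_eq' (hd m) a b
  set T := a * 2 ^ ln b + b with hT
  have hp : 0 < 2 ^ (ln a + ln b) := by positivity
  have hne : pc (hd m) a b ≠ 0 := by
    rw [e]; positivity
  rw [ln_eq (pc (hd m) a b)]
  have : (pc (hd m) a b).log2 = ln a + ln b + 1 := by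
    rw [Nat.log2_eq_iff hne, e]
    constructor
    · rw [pow_succ]; nlinarith
    · rw [pow_succ, pow_succ]; nlinarith
  rw [this]

theorem mkc_cases (m : Bool) (a b : ℕ) :
    (mkc m a b = pc (hd m) a b ∧ b < a) ∨ (mkc m a b = pc (hd m) b a ∧ a ≤ b) := by
  unfold mkc
  cases h : Nat.ble a b with
  | true => exact Or.inr ⟨rfl, Nat.le_of_ble_eq_true h⟩
  | false =>
    refine Or.inl ⟨rfl, ?_⟩
    by_contra h'
    rw [not_lt] at h'
    rw [Nat.ble_eq_true_of_le h'] at h
    cases h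

/-- the number is a word of a prefix free set containing the codes -/
def PF (a : ℕ) : Prop := ∀ (b' : MB) (p p' r r' : ℕ), r < 2 ^ p → r' < 2 ^ p' →
  ln a + p = ln (code b') + p' → a * 2 ^ p + r = code b' * 2 ^ p' + r' →
  a = code b' ∧ p = p' ∧ r = r'

theorem pc_big (m : Bool) (a b p : ℕ) : 2 ^ (ln a + ln b + 1 + p) ≤ pc (hd m) a b * 2 ^ p := by
  have h2 := hd_two m
  rw [pc_eq' (hd m) a b, pow_add _ _ p]
  refine Nat.mul_le_mul_right _ ?_
  rw [pow_succ]
  have hp : 0 < 2 ^ (ln a + ln b) := by positivity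
  nlinarith [Nat.zero_le (a * 2 ^ ln b + b)]

theorem PF_zero : PF 0 := by
  intro b' p p' r r' hr hr' hl he
  cases b' with
  | e =>
    rw [code_e] at hl he
    refine ⟨rfl, by omega, by omega⟩
  | n m x y =>
    exfalso
    rw [code_n] at hl he
    have h0 : ln 0 = 1 := by simp [ln_eq]
    rw [h0] at hl
    have key : ∀ a b, mkc m (code x) (code y) = pc (hd m) a b → False := by
      intro a b h
      rw [h] at hl he
      rw [ln_pc] at hl
      have h1 := pc_big m a b p'
      have h2 : p = ln a + ln b + 1 + p' := by omega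
      rw [← h2] at h1
      omega
    rcases mkc_cases m (code x) (code y) with ⟨h, -⟩ | ⟨h, -⟩
    · exact key _ _ h
    · exact key _ _ h

theorem pc_split {m m' : Bool} {a c a' c' p p' r r' : ℕ} (hr : r < 2 ^ p) (hr' : r' < 2 ^ p')
    (hl : ln (pc (hd m) a c) + p = ln (pc (hd m') a' c') + p')
    (he : pc (hd m) a c * 2 ^ p + r = pc (hd m') a' c' * 2 ^ p' + r') :
    hd m = hd m' ∧ ln a + (ln c + p) = ln a' + (ln c' + p') ∧
      a * 2 ^ (ln c + p) + (c * 2 ^ p + r) = a' * 2 ^ (ln c' + p') + (c' * 2 ^ p' + r') := by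
  rw [ln_pc, ln_pc] at hl
  have e1 : ∀ h a c p r : ℕ, pc h a c * 2 ^ p + r =
      h * 2 ^ (ln a + (ln c + p)) + (a * 2 ^ (ln c + p) + (c * 2 ^ p + r)) := by
    intro h a c p r
    rw [pc_eq]
    simp only [pow_add]
    ring
  have e2 : ∀ a c p r : ℕ, r < 2 ^ p →
      a * 2 ^ (ln c + p) + (c * 2 ^ p + r) < 2 ^ (ln a + (ln c + p)) := by
    intro a c p r hr
    have h1 := lt_ln a
    have h2 := lt_ln c
    have h3 : c * 2 ^ p + r < 2 ^ (ln c + p) := by
      rw [pow_add]; nlinarith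
    rw [pow_add _ (ln a)]
    have h4 := Nat.mul_le_mul_right (2 ^ (ln c + p)) (Nat.succ_le_of_lt h1)
    rw [Nat.succ_mul] at h4
    linarith
  rw [e1, e1] at he
  have hS : ln a + (ln c + p) = ln a' + (ln c' + p') := by omega
  have h4 := e2 a c p r hr
  have h5 := e2 a' c' p' r' hr'
  rw [← hS] at he h5
  have hp : 0 < 2 ^ (ln a + (ln c + p)) := by positivity
  have h6 : hd m = hd m' := by
    have h7 : (hd m * 2 ^ (ln a + (ln c + p)) + (a * 2 ^ (ln c + p) + (c * 2 ^ p + r))) /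
        2 ^ (ln a + (ln c + p)) =
      (hd m' * 2 ^ (ln a + (ln c + p)) + (a' * 2 ^ (ln c' + p') + (c' * 2 ^ p' + r'))) /
        2 ^ (ln a + (ln c + p)) := by rw [he]
    rw [mul_comm (hd m), mul_comm (hd m'), Nat.mul_add_div hp, Nat.mul_add_div hp,
      Nat.div_eq_of_lt h4, Nat.div_eq_of_lt h5] at h7
    simpa using h7
  refine ⟨h6, hS, ?_⟩
  rw [h6] at he
  exact Nat.add_left_cancel he

theorem lt_step {c p r : ℕ} (hr : r < 2 ^ p) : c * 2 ^ p + r < 2 ^ (ln c + p) := by
  have h2 := lt_ln c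
  rw [pow_add]; nlinarith

theorem PF_pc {m : Bool} {a c : ℕ} (ha : PF a) (hc : PF c) : PF (pc (hd m) a c) := by
  intro b' p p' r r' hr hr' hl he
  cases b' with
  | e =>
    exfalso
    rw [code_e] at hl he
    have h0 : ln 0 = 1 := by simp [ln_eq]
    rw [h0, ln_pc] at hl
    have h1 := pc_big m a c p
    have h2 : p' = ln a + ln c + 1 + p := by omega
    rw [← h2] at h1
    omega
  | n m' x' y' =>
    rw [code_n] at hl he ⊢
    have key : ∀ u v : MB, mkc m' (code x') (code y') = pc (hd m') (code u) (code v) →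
        pc (hd m) a c = mkc m' (code x') (code y') ∧ p = p' ∧ r = r' := by
      intro u v h
      rw [h] at hl he ⊢
      obtain ⟨h1, h2, h3⟩ := pc_split hr hr' hl he
      obtain ⟨h4, h5, h6⟩ := ha u _ _ _ _ (lt_step hr) (lt_step hr') h2 h3
      obtain ⟨h7, h8, h9⟩ := hc v _ _ _ _ hr hr' h5 h6
      exact ⟨by rw [h1, h4, h7], h8, h9⟩
    rcases mkc_cases m' (code x') (code y') with ⟨h, -⟩ | ⟨h, -⟩
    · exact key _ _ h
    · exact key _ _ h

theorem PF_code (b : MB) : PF (code b) := by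
  induction b with
  | e => exact PF_zero
  | n m x y ihx ihy =>
    rw [code_n]
    rcases mkc_cases m (code x) (code y) with ⟨h, -⟩ | ⟨h, -⟩
    · rw [h]; exact PF_pc ihx ihy
    · rw [h]; exact PF_pc ihy ihx

theorem pc_inj {m m' : Bool} {a c : ℕ} {u v : MB} (ha : PF a) (hc : PF c)
    (h : pc (hd m) a c = pc (hd m') (code u) (code v)) : m = m' ∧ a = code u ∧ c = code v := by
  have hl : ln (pc (hd m) a c) + 0 = ln (pc (hd m') (code u) (code v)) + 0 := by rw [h]
  have he : pc (hd m) a c * 2 ^ 0 + 0 = pc (hd m') (code u) (code v) * 2 ^ 0 + 0 := by rw [h]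
  have h0 : (0 : ℕ) < 2 ^ 0 := by simp
  obtain ⟨h1, h2, h3⟩ := pc_split h0 h0 hl he
  obtain ⟨h4, h5, h6⟩ := ha u _ _ _ _ (lt_step h0) (lt_step h0) h2 h3
  obtain ⟨h7, -, -⟩ := hc v _ _ _ _ h0 h0 h5 h6
  exact ⟨hd_inj h1, h4, h7⟩

theorem mkc_ne_zero (m : Bool) (a b : ℕ) : mkc m a b ≠ 0 := by
  have key : ∀ a b : ℕ, pc (hd m) a b ≠ 0 := by
    intro a b
    have h2 := hd_two m
    rw [pc_eq]
    have : 0 < hd m * 2 ^ ln a := by positivity
    positivity
  rcases mkc_cases m a b with ⟨h, -⟩ | ⟨h, -⟩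
  · rw [h]; exact key _ _
  · rw [h]; exact key _ _

theorem code_inj : ∀ {b b' : MB}, code b = code b' → Idg.BEq b b' := by
  intro b
  induction b with
  | e =>
    intro b' h
    cases b' with
    | e => exact Idg.BEq.refl _
    | n m x y => exact absurd h.symm (mkc_ne_zero _ _ _)
  | n m x y ihx ihy =>
    intro b' h
    cases b' with
    | e => exact absurd h (mkc_ne_zero _ _ _)
    | n m' x' y' =>
      rw [code_n, code_n] at h
      rcases mkc_cases m (code x) (code y) with ⟨h1, -⟩ | ⟨h1, -⟩ <;>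
        rcases mkc_cases m' (code x') (code y') with ⟨h2, -⟩ | ⟨h2, -⟩ <;>
        rw [h1, h2] at h
      · obtain ⟨rfl, h3, h4⟩ := pc_inj (PF_code x) (PF_code y) h
        exact Idg.BEq.n m (ihx h3) (ihy h4)
      · obtain ⟨rfl, h3, h4⟩ := pc_inj (PF_code x) (PF_code y) h
        exact (Idg.BEq.n m (ihx h3) (ihy h4)).trans (Idg.BEq.sw m _ _)
      · obtain ⟨rfl, h3, h4⟩ := pc_inj (PF_code y) (PF_code x) h
        exact (Idg.BEq.n m (ihx h4) (ihy h3)).trans (Idg.BEq.sw m _ _)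
      · obtain ⟨rfl, h3, h4⟩ := pc_inj (PF_code y) (PF_code x) h
        exact Idg.BEq.n m (ihx h4) (ihy h3)

theorem beq_size {b b' : MB} (h : Idg.BEq b b') : b.size = b'.size := by
  have := (h .e).size
  simpa [msz_singleton, ksz, MB.size] using this

end Pool.Agent.Helper66.MT
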