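import Pool.Agent.Helper66.MT.Defs

/-!
The moves and the deletions in a closed branch, by vertices.
-/

namespace Pool.Agent.Helper66.MT

open Pool.Agent.Helper44
open Pool.Agent.Helper44.Idg

/-- the views of the vertices of a branch: the mark, the two children, the upper branch -/
def vws : MB → MB → List (Bool × MB × MB × MB)
  | _, .e => []
  | up, .n m x y => (m, x, y, up) :: (vws (.n m y up) x ++ vws (.n m x up) y)

/-- the components after the selection of the vertex -/
def kd (v : Bool × MB × MB × MB) : Multiset K := ch v.2.1 + ch v.2.2.1 + ch v.2.2.2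

/-- the components after the deletion of the vertex -/
def dd (v : Bool × MB × MB × MB) : Multiset K := {(v.2.1, .e), (v.2.2.1, .e), (v.2.2.2, .e)}

theorem mem_vws_self (m : Bool) (x y up : MB) : (m, x, y, up) ∈ vws up (.n m x y) := by
  simp [vws]

theorem mem_vws_l {m : Bool} {x y up : MB} {v : Bool × MB × MB × MB}
    (h : v ∈ vws (.n m y up) x) : v ∈ vws up (.n m x y) := by
  simp [vws, h]

theorem mem_vws_r {m : Bool} {x y up : MB} {v : Bool × MB × MB × MB}
    (h : v ∈ vws (.n m x up) y) : v ∈ vws up (.n m x y) := by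
  simp [vws, h]

theorem view_eq : ∀ (b up : MB), ∀ v ∈ vws up b,
    PEq {(b, up)} {(.n v.1 v.2.1 v.2.2.1, v.2.2.2)} := by
  intro b
  induction b with
  | e => intro up v hv; simp [vws] at hv
  | n m x y ihx ihy =>
    intro up v hv
    rw [vws, List.mem_cons, List.mem_append] at hv
    rcases hv with rfl | hv | hv
    · exact PEq.refl _
    · exact (PEq.rho m x y up).trans (ihx _ v hv)
    · exact (PEq.sw m x y up).trans ((PEq.rho m y x up).trans (ihy _ v hv))

/-- every vertex can be selected -/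
theorem view_move {b up : MB} {v : Bool × MB × MB × MB} (hv : v ∈ vws up b) :
    ∃ F, pg.mv {(b, up)} F ∧ PEq (kd v) F := by
  have h1 : pg.mv {(.n v.1 v.2.1 v.2.2.1, v.2.2.2)} (kd v) := by
    rw [mv_single]
    exact cmv.bR (b := .n v.1 v.2.1 v.2.2.1) (c := v.2.2.2) (by simp)
  obtain ⟨F, h2, h3⟩ := (view_eq b up v hv).sim.1.2 _ h1
  exact ⟨F, h2, h3.symm⟩

theorem OA_view {b : MB} {b' : MB} {f : Multiset K} (h : OA b b' f) : ∀ up : MB,
    ∃ v ∈ vws up b, PEq (kd v) ((b', up) ::ₘ f) := by
  have root : ∀ x : MB, x ≠ .e → ∀ up, ∃ v ∈ vws up x, kd v = sel x + ch up := by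
    intro x hx up
    cases x with
    | e => exact absurd rfl hx
    | n m p q => exact ⟨(m, p, q, up), mem_vws_self _ _ _ _, rfl⟩
  induction h with
  | @l m x y x' f h ih =>
    intro up
    obtain ⟨v, hv, hP⟩ := ih (.n m y up)
    refine ⟨v, mem_vws_l hv, hP.trans ?_⟩
    exact (PEq.rho m x' y up).symm.cons2 (PEq.refl _)
  | @r m x y y' f h ih =>
    intro up
    obtain ⟨v, hv, hP⟩ := ih (.n m x up)
    refine ⟨v, mem_vws_r hv, hP.trans ?_⟩
    exact ((PEq.rho m y' x up).symm.trans (PEq.sw m y' x up)).cons2 (PEq.refl _)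
  | @kl m x y hx =>
    intro up
    obtain ⟨v, hv, hP⟩ := root x hx (.n m y up)
    refine ⟨v, mem_vws_l hv, ?_⟩
    rw [hP, ch_n]
    refine (PEq.of_eq ?_).trans ((PEq.sig up .e).cons2 (PEq.refl _))
    simp only [Multiset.insert_eq_cons, ← Multiset.singleton_add]
    abel
  | @kr m x y hy =>
    intro up
    obtain ⟨v, hv, hP⟩ := root y hy (.n m x up)
    refine ⟨v, mem_vws_r hv, ?_⟩
    rw [hP, ch_n]
    refine (PEq.of_eq ?_).trans ((PEq.sig up .e).cons2 (PEq.refl _))
    simp only [Multiset.insert_eq_cons, ← Multiset.singleton_add]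
    abel

theorem cmv_view {b : MB} {F : Multiset K} (h : cmv (b, .e) F) :
    ∃ v ∈ vws .e b, PEq (kd v) F := by
  cases h with
  | bA h => exact OA_view h .e
  | cA h => exact absurd rfl h.ne
  | bR h =>
    cases b with
    | e => exact absurd rfl h
    | n m p q => exact ⟨(m, p, q, .e), mem_vws_self _ _ _ _, PEq.refl _⟩
  | cR h => exact absurd rfl h

theorem OD_view {b : MB} {b' : MB} {f : Multiset K} (h : OD b b' f) : ∀ up : MB,
    ∃ v ∈ vws up b, v.1 = true ∧ PEq (dd v) ((b', up) ::ₘ f) := by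
  induction h with
  | @root x y =>
    intro up
    refine ⟨(true, x, y, up), mem_vws_self _ _ _ _, rfl, ?_⟩
    rw [ch_n]
    have h1 : (dd (true, x, y, up) : Multiset K) = (up, .e) ::ₘ {(x, .e), (y, .e)} := by
      simp only [dd, Multiset.insert_eq_cons, ← Multiset.singleton_add]
      abel
    rw [h1]
    exact (PEq.sig up .e).cons2 (PEq.refl _)
  | @l m x y x' f h ih =>
    intro up
    obtain ⟨v, hv, hm, hP⟩ := ih (.n m y up)
    exact ⟨v, mem_vws_l hv, hm, hP.trans ((PEq.rho m x' y up).symm.cons2 (PEq.refl _))⟩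
  | @r m x y y' f h ih =>
    intro up
    obtain ⟨v, hv, hm, hP⟩ := ih (.n m x up)
    exact ⟨v, mem_vws_r hv, hm,
      hP.trans (((PEq.rho m y' x up).symm.trans (PEq.sw m y' x up)).cons2 (PEq.refl _))⟩

theorem cdl_view {b : MB} {F : Multiset K} (h : cdl (b, .e) F) :
    ∃ v ∈ vws .e b, v.1 = true ∧ PEq (dd v) F := by
  cases h with
  | bD h => exact OD_view h .e
  | cD h => exact absurd rfl h.ne

/-- sizes in a view -/
theorem view_size {b up : MB} {v : Bool × MB × MB × MB} (hv : v ∈ vws up b) :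
    v.2.1.size + v.2.2.1.size + v.2.2.2.size + 1 = b.size + up.size := by
  have := (view_eq b up v hv).size
  simp only [msz_singleton, ksz, MB.size] at this
  omega

end Pool.Agent.Helper66.MT
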